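import Mathlib
import Pool.Agent.N245.GB.Main

/-!
# Positivity of the convolution sums of generalized Bernoulli polynomials

The polynomial `B_n^{(n)}(x) = ∫_x^{x+1} (t-1)⋯(t-n) dt` alternates in sign at `0, 1, …, n`, so all its
zeros are real, and the numbers `α_{n,k}(x)`, `β_{n,k}(x)` are elementary symmetric functions of the
squares of the numbers `x - r`, `r` a zero.
-/

set_option autoImplicit false

open Finset

namespace Pool.Agent.Results.MP_6eafb7_an.Positivity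

/-- The generalized (Norlund) Bernoulli polynomial `B_m^{(a)}(x)` of order `a ∈ ℕ` at `x ∈ ℝ`: the
coefficient of `t^m / m!` in `(t / (e^t - 1))^a e^{x t}`. -/
noncomputable def genBernoulli (a m : ℕ) (x : ℝ) : ℝ :=
  (m.factorial : ℝ) * PowerSeries.coeff m (bernoulliPowerSeries ℝ ^ a *
    PowerSeries.rescale x (PowerSeries.exp ℝ))

/-- `α_{n,k}(x)`. -/
noncomputable def alpha (n k : ℕ) (x : ℝ) : ℝ :=
  (-1) ^ k * ∑ j ∈ range (2 * k + 1), (-1) ^ j * (n.choose j : ℝ) * (n.choose (2 * k - j) : ℝ) *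
    genBernoulli n (n - j) x * genBernoulli n (n - 2 * k + j) x

/-- `β_{n,k}(x)`. -/
noncomputable def beta (n k : ℕ) (x : ℝ) : ℝ :=
  (-1) ^ k * ∑ j ∈ range (2 * k + 1), (-1) ^ j * (n.choose j : ℝ) * (n.choose (2 * k - j) : ℝ) *
    genBernoulli n j x * genBernoulli n (2 * k - j) x

/-- For every integer `n ≥ 1` and all real `x`: `α_{n,k}(x) ≥ 0` for `1 ≤ 2k ≤ n` and `β_{n,k}(x) ≥ 0`
for `0 ≤ 2k ≤ n - 1`. -/
theorem result : ∀ n : ℕ, 1 ≤ n → ∀ x : ℝ,
    (∀ k : ℕ, 1 ≤ 2 * k → 2 * k ≤ n → 0 ≤ alpha n k x) ∧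
    (∀ k : ℕ, 2 * k ≤ n - 1 → 0 ≤ beta n k x) :=
  fun n hn x => ⟨fun k _ hk => Pool.Agent.N245.GB.alpha_nonneg n k hk x,
    fun k hk => Pool.Agent.N245.GB.beta_nonneg n k (by omega) x⟩

end Pool.Agent.Results.MP_6eafb7_an.Positivity
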